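import Mathlib
import Pool.Agent.Lib.MP_8bcb9d_co.LemA5

/-!
# Sets of small spread have a pair of large degree
-/

set_option autoImplicit false

namespace Pool.Agent.Results.MP_8bcb9d_co.LowSpread

open Pool.Agent.Lib.MP_8bcb9d_co

/-- Let `X` be a finite planar set with no three collinear points and let `T` be a map that
preserves and reflects, for points of `X`, the relation of lying in a triangle (for example an
affine map, or a projective map whose line at infinity misses the convex hull of `X`). If some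
`S ⊆ X` is such that `T` sends `S` into a disc of radius `R`, with mutual distances at least `r`,
where `0 < r ≤ R`, and `S` has more than `10 ^ 15 * 8192 ^ K * (R / r)` points, then some two
points `x`, `y` of `X` have more than `K` points `z` such that `x y z` is an empty triangle. -/
theorem result :
    ∀ (K : ℕ) (X S : Finset (EuclideanSpace ℝ (Fin 2)))
      (T : EuclideanSpace ℝ (Fin 2) → EuclideanSpace ℝ (Fin 2))
      (o : EuclideanSpace ℝ (Fin 2)) (R r : ℝ),
      (∀ a ∈ X, ∀ b ∈ X, ∀ c ∈ X, a ≠ b → a ≠ c → b ≠ c →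
        ¬ Collinear ℝ ({a, b, c} : Set (EuclideanSpace ℝ (Fin 2)))) →
      (∀ x ∈ X, ∀ y ∈ X, ∀ z ∈ X, ∀ w ∈ X,
        T w ∈ convexHull ℝ ({T x, T y, T z} : Set (EuclideanSpace ℝ (Fin 2))) ↔
          w ∈ convexHull ℝ ({x, y, z} : Set (EuclideanSpace ℝ (Fin 2)))) →
      S ⊆ X → 0 < r → r ≤ R →
      (∀ p ∈ S, dist (T p) o ≤ R) →
      (∀ p ∈ S, ∀ q ∈ S, p ≠ q → r ≤ dist (T p) (T q)) →
      10 ^ 15 * 8192 ^ K * (R / r) < (S.card : ℝ) →
      ∃ x ∈ X, ∃ y ∈ X, x ≠ y ∧
        K < {z : EuclideanSpace ℝ (Fin 2) | z ∈ X ∧ z ≠ x ∧ z ≠ y ∧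
              ∀ w ∈ X, w ∈ convexHull ℝ ({x, y, z} : Set (EuclideanSpace ℝ (Fin 2))) →
                w = x ∨ w = y ∨ w = z}.ncard := by
  classical
  intro K X S T o R r hX hT hS hr hrR hR hsep hcard
  by_contra hcon
  push Not at hcon
  -- `T` is injective on `X`
  have hinj : ∀ x ∈ X, ∀ y ∈ X, T x = T y → x = y := by
    intro x hx y hy hxy
    have h1 : T y ∈ convexHull ℝ ({T x, T x, T x} : Set (EuclideanSpace ℝ (Fin 2))) := by
      rw [← hxy]; exact subset_convexHull _ _ (by simp)
    have h2 := (hT x hx x hx x hx y hy).1 h1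
    simp only [Set.mem_singleton_iff, Set.insert_eq_of_mem, convexHull_singleton] at h2
    exact h2.symm
  -- the image is in general position
  have hgp : GenPos (X.image T) := by
    intro a' ha' b' hb' c' hc' hab hac hbc hcol
    obtain ⟨a, ha, rfl⟩ := Finset.mem_image.1 ha'
    obtain ⟨b, hb, rfl⟩ := Finset.mem_image.1 hb'
    obtain ⟨c, hc, rfl⟩ := Finset.mem_image.1 hc'
    have hab' : a ≠ b := fun h => hab (by rw [h])
    have hac' : a ≠ c := fun h => hac (by rw [h])
    have hbc' : b ≠ c := fun h => hbc (by rw [h])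
    -- a point between two others
    have key : ∀ x ∈ X, ∀ y ∈ X, ∀ z ∈ X, x ≠ y → x ≠ z → y ≠ z →
        Wbtw ℝ (T x) (T y) (T z) → False := by
      intro x hx y hy z hz hxy hxz hyz hw
      have h1 : T y ∈ convexHull ℝ ({T x, T x, T z} : Set (EuclideanSpace ℝ (Fin 2))) := by
        have : ({T x, T x, T z} : Set (EuclideanSpace ℝ (Fin 2))) = {T x, T z} := by simp
        rw [this, convexHull_pair]
        exact hw.mem_segment
      have h2 := (hT x hx x hx z hz y hy).1 h1
      have : ({x, x, z} : Set (EuclideanSpace ℝ (Fin 2))) = {x, z} := by simp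
      rw [this, convexHull_pair] at h2
      exact hX x hx y hy z hz hxy hxz hyz (mem_segment_iff_wbtw.1 h2).collinear
    rcases hcol.wbtw_or_wbtw_or_wbtw with h | h | h
    · exact key a ha b hb c hc hab' hac' hbc' h
    · exact key b hb c hc a ha hbc' hab'.symm hac'.symm h
    · exact key c hc a ha b hb hac'.symm hbc'.symm hab' h
  -- the degrees of the image
  have hdeg : ∀ x ∈ X.image T, ∀ y ∈ X.image T, x ≠ y → (Deg (X.image T) x y).ncard ≤ K := by
    intro x' hx' y' hy' hxy'
    obtain ⟨x, hx, rfl⟩ := Finset.mem_image.1 hx'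
    obtain ⟨y, hy, rfl⟩ := Finset.mem_image.1 hy'
    have hxy : x ≠ y := fun h => hxy' (by rw [h])
    have h1 := hcon x hx y hy hxy
    have hsub : Deg (X.image T) (T x) (T y) ⊆ T '' (Deg X x y) := by
      rintro z' ⟨hz', hzx, hzy, hz⟩
      obtain ⟨z, hzX, rfl⟩ := Finset.mem_image.1 hz'
      refine ⟨z, ⟨hzX, fun h => hzx (by rw [h]), fun h => hzy (by rw [h]), ?_⟩, rfl⟩
      intro w hw hwc
      have h2 := hz (T w) (Finset.mem_image_of_mem T hw) ((hT x hx y hy z hzX w hw).2 hwc)
      rcases h2 with h2 | h2 | h2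
      · exact Or.inl (hinj w hw x hx h2)
      · exact Or.inr (Or.inl (hinj w hw y hy h2))
      · exact Or.inr (Or.inr (hinj w hw z hzX h2))
    calc (Deg (X.image T) (T x) (T y)).ncard ≤ (T '' (Deg X x y)).ncard :=
          Set.ncard_le_ncard hsub ((Deg.finite X x y).image T)
      _ ≤ (Deg X x y).ncard := Set.ncard_image_le (Deg.finite X x y)
      _ ≤ K := h1
  have hcov := covering hgp hdeg (S := S.image T) (Finset.image_subset_image hS) (c := o) hr hrR
    (by
      intro p' hp' q' hq' hne
      obtain ⟨p, hp, rfl⟩ := Finset.mem_image.1 hp'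
      obtain ⟨q, hq, rfl⟩ := Finset.mem_image.1 hq'
      exact hsep p hp q hq fun h => hne (by rw [h]))
    (by
      intro p' hp'
      obtain ⟨p, hp, rfl⟩ := Finset.mem_image.1 hp'
      exact hR p hp)
  rw [Finset.card_image_of_injOn fun x hx y hy h => hinj x (hS hx) y (hS hy) h] at hcov
  linarith

end Pool.Agent.Results.MP_8bcb9d_co.LowSpread
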